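import Pool.Agent.W443.J5.Stms

set_option autoImplicit false
set_option linter.unusedVariables false

/-! Coprime powers of polynomials in two variables. -/

open MvPolynomial

namespace Pool.Agent.W930.J5

open Pool.Agent.W443.J5

universe u

theorem p2 : S_P2.{u} := by
  intro k _ _ F H c s t hc hs hst hF hFH
  have hH : H ≠ 0 := by
    rintro rfl
    rw [zero_pow (by omega), mul_zero] at hFH
    exact pow_ne_zero t hF hFH
  let L := FractionRing (MvPolynomial (Fin 2) k)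
  let φ : MvPolynomial (Fin 2) k →+* L := algebraMap _ L
  have hφ : Function.Injective φ := IsFractionRing.injective (MvPolynomial (Fin 2) k) L
  obtain ⟨a, b, hab⟩ := Nat.isCoprime_iff_coprime.2 hst
  have hF' : φ F ≠ 0 := fun h => hF (hφ (by rw [h, map_zero]))
  have hH' : φ H ≠ 0 := fun h => hH (hφ (by rw [h, map_zero]))
  set ρ : L := φ F ^ a * φ H ^ b with hρ
  have hκ : φ (C (c ^ b)) = φ (C c) ^ b := by
    exact map_zpow₀ (φ.comp (C : k →+* MvPolynomial (Fin 2) k)) c b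
  have h1 : φ F = φ (C (c ^ b)) * ρ ^ s := by
    have h2 : φ F ^ (t : ℤ) = φ (C c) * φ H ^ (s : ℤ) := by
      rw [zpow_natCast, zpow_natCast, ← map_pow, ← map_pow, ← map_mul, hFH]
    have h3 : (φ F ^ a) ^ (s : ℤ) * (φ F ^ (t : ℤ)) ^ b = φ F := by
      rw [← zpow_mul, ← zpow_mul, ← zpow_add₀ hF', mul_comm (t : ℤ) b, hab, zpow_one]
    rw [h2, mul_zpow, zpow_natCast, ← zpow_mul, mul_comm (s : ℤ) b, zpow_mul (φ H) b (s : ℤ),
      zpow_natCast] at h3
    rw [hκ, hρ, mul_pow]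
    refine h3.symm.trans ?_
    ring
  have hcb : c ^ b ≠ 0 := zpow_ne_zero b hc
  have h4 : ρ ^ s = φ (C ((c ^ b)⁻¹) * F) := by
    rw [map_mul, h1, ← mul_assoc, ← map_mul, ← C_mul, inv_mul_cancel₀ hcb]
    simp
  obtain ⟨R, hR⟩ := IsIntegrallyClosed.exists_algebraMap_eq_of_isIntegral_pow
    (R := MvPolynomial (Fin 2) k) (K := L) (x := ρ) (n := s) (by omega) (by
      rw [h4]
      exact isIntegral_algebraMap)
  refine ⟨c ^ b, R, hcb, hφ ?_⟩
  rw [map_mul, map_pow]
  change φ F = φ (C (c ^ b)) * (algebraMap _ L R) ^ s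
  rw [hR, ← h1]

end Pool.Agent.W930.J5
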